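import Pool.Agent.FTU.Stmts

/-!
# FTU, row CPL: the polynomials are dense in `L^2` of the Gaussian measure
-/

set_option autoImplicit false
set_option linter.unusedSectionVars false

open MeasureTheory Complex ProbabilityTheory

namespace Pool.Agent.FTU.H7

open Pool.Agent.Loc (γn)

section general

variable {E : Type*} [NormedAddCommGroup E] [NormedSpace ℝ E] [CompleteSpace E]
  [SecondCountableTopology E] [MeasurableSpace E] [BorelSpace E]

omit [CompleteSpace E] [SecondCountableTopology E] [MeasurableSpace E] [BorelSpace E] in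
theorem cont_char (L : StrongDual ℝ E) : Continuous fun y : E => cexp ((L y : ℂ) * I) := by
  fun_prop

omit [CompleteSpace E] in
theorem int_char {μ : Measure E} {g : E → ℂ} (hg : Integrable g μ) (L : StrongDual ℝ E) :
    Integrable (fun y => g y * cexp ((L y : ℂ) * I)) μ := by
  refine hg.mul_bdd (c := 1) (cont_char L).aestronglyMeasurable (ae_of_all _ fun y => ?_)
  rw [Complex.norm_exp_ofReal_mul_I]

theorem real_zero {μ : Measure E} [IsFiniteMeasure μ] {u : E → ℝ} (hu : Integrable u μ)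
    (h : ∀ L : StrongDual ℝ E, ∫ y, (u y : ℂ) * cexp ((L y : ℂ) * I) ∂μ = 0) : u =ᵐ[μ] 0 := by
  have hm : AEMeasurable u μ := hu.1.aemeasurable
  have hp : AEMeasurable (fun y => ENNReal.ofReal (u y)) μ := hm.ennreal_ofReal
  have hn : AEMeasurable (fun y => ENNReal.ofReal (-u y)) μ := hm.neg.ennreal_ofReal
  have f1 : IsFiniteMeasure (μ.withDensity fun y => ENNReal.ofReal (u y)) :=
    isFiniteMeasure_withDensity_ofReal hu.2
  have f2 : IsFiniteMeasure (μ.withDensity fun y => ENNReal.ofReal (-u y)) :=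
    isFiniteMeasure_withDensity_ofReal (f := fun y => -u y) hu.neg.2
  have key : (μ.withDensity fun y => ENNReal.ofReal (u y)) =
      μ.withDensity fun y => ENNReal.ofReal (-u y) := by
    refine Measure.ext_of_charFunDual (funext fun L => ?_)
    rw [charFunDual_apply, charFunDual_apply,
      integral_withDensity_eq_integral_toReal_smul₀ hp (ae_of_all _ fun y => ENNReal.ofReal_lt_top),
      integral_withDensity_eq_integral_toReal_smul₀ hn (ae_of_all _ fun y => ENNReal.ofReal_lt_top)]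
    have i1 : Integrable (fun y => ((ENNReal.ofReal (u y)).toReal : ℝ) • cexp ((L y : ℂ) * I)) μ := by
      have h1 : Integrable (fun y => ((max (u y) 0 : ℝ) : ℂ)) μ := hu.pos_part.ofReal
      refine (int_char h1 L).congr (ae_of_all _ fun y => ?_)
      simp only [ENNReal.toReal_ofReal', Complex.real_smul]
    have i2 : Integrable (fun y => ((ENNReal.ofReal (-u y)).toReal : ℝ) • cexp ((L y : ℂ) * I)) μ := by
      have h1 : Integrable (fun y => ((max (-u y) 0 : ℝ) : ℂ)) μ := hu.neg_part.ofReal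
      refine (int_char h1 L).congr (ae_of_all _ fun y => ?_)
      simp only [ENNReal.toReal_ofReal', Complex.real_smul]
    rw [← sub_eq_zero, ← integral_sub i1 i2, ← h L]
    refine integral_congr_ae (ae_of_all _ fun y => ?_)
    simp only [ENNReal.toReal_ofReal', Complex.real_smul]
    rw [← sub_mul, ← Complex.ofReal_sub]
    congr 2
    rcases le_total (u y) 0 with h0 | h0
    · rw [max_eq_right h0, max_eq_left (by linarith)]; ring
    · rw [max_eq_left h0, max_eq_right (by linarith)]; ring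
  have hfin : ∫⁻ y, ENNReal.ofReal (u y) ∂μ ≠ ⊤ := by
    have h2 := f1.measure_univ_lt_top
    rw [withDensity_apply _ MeasurableSet.univ, setLIntegral_univ] at h2
    exact h2.ne
  have h3 := (withDensity_eq_iff hp hn hfin).1 key
  filter_upwards [h3] with y hy
  have h4 := congrArg ENNReal.toReal hy
  simp only [ENNReal.toReal_ofReal'] at h4
  simp only [Pi.zero_apply]
  rcases le_total (u y) 0 with h0 | h0
  · rw [max_eq_right h0, max_eq_left (by linarith)] at h4
    linarith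
  · rw [max_eq_left h0, max_eq_right (by linarith)] at h4
    linarith

theorem cplx_zero {μ : Measure E} [IsFiniteMeasure μ] {g : E → ℂ} (hg : Integrable g μ)
    (h : ∀ L : StrongDual ℝ E, ∫ y, g y * cexp ((L y : ℂ) * I) ∂μ = 0) : g =ᵐ[μ] 0 := by
  have hc : ∀ L : StrongDual ℝ E, ∫ y, (starRingEnd ℂ) (g y) * cexp ((L y : ℂ) * I) ∂μ = 0 := by
    intro L
    have h1 := congrArg (starRingEnd ℂ) (h (-L))
    rw [← integral_conj, map_zero] at h1
    rw [← h1]
    refine integral_congr_ae (ae_of_all _ fun y => ?_)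
    simp only [map_mul, ← Complex.exp_conj, Complex.conj_ofReal, Complex.conj_I]
    congr 2
    simp
  have hgc : Integrable (fun y => (starRingEnd ℂ) (g y)) μ := by
    refine (Complex.conjCLE.toContinuousLinearMap.integrable_comp hg).congr (ae_of_all _ fun y => ?_)
    rfl
  have hre : (fun y => (g y).re) =ᵐ[μ] 0 := by
    refine real_zero hg.re fun L => ?_
    have h2 : ∀ y, (((g y).re : ℝ) : ℂ) * cexp ((L y : ℂ) * I) =
        (1 / 2 : ℂ) * (g y * cexp ((L y : ℂ) * I) + (starRingEnd ℂ) (g y) * cexp ((L y : ℂ) * I)) := by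
      intro y
      rw [Complex.re_eq_add_conj]
      ring
    rw [integral_congr_ae (ae_of_all _ h2), integral_const_mul,
      integral_add (int_char hg L) (int_char hgc L), h L, hc L]
    simp
  have him : (fun y => (g y).im) =ᵐ[μ] 0 := by
    refine real_zero hg.im fun L => ?_
    have h2 : ∀ y, (((g y).im : ℝ) : ℂ) * cexp ((L y : ℂ) * I) =
        (1 / (2 * I) : ℂ) * (g y * cexp ((L y : ℂ) * I) - (starRingEnd ℂ) (g y) * cexp ((L y : ℂ) * I)) := by
      intro y
      rw [Complex.im_eq_sub_conj]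
      ring
    rw [integral_congr_ae (ae_of_all _ h2), integral_const_mul,
      integral_sub (int_char hg L) (int_char hgc L), h L, hc L]
    simp
  filter_upwards [hre, him] with y h1 h2
  exact Complex.ext h1 h2

end general

section gauss

variable {ι : Type} [Fintype ι] [DecidableEq ι]

theorem pe_add (P Q : MvPolynomial ι ℂ) (y : ι → ℝ) : pe (P + Q) y = pe P y + pe Q y := by
  simp [pe]

theorem pe_smul (c : ℂ) (P : MvPolynomial ι ℂ) (y : ι → ℝ) : pe (c • P) y = c * pe P y := by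
  simp [pe]

theorem pe_conj (P : MvPolynomial ι ℂ) (y : ι → ℝ) :
    pe (MvPolynomial.map (starRingEnd ℂ) P) y = (starRingEnd ℂ) (pe P y) := by
  unfold pe
  induction P using MvPolynomial.induction_on with
  | C a => simp
  | add p q hp hq => simp [hp, hq]
  | mul_X p i hp => simp [hp]

/-- the linear form as a polynomial -/
noncomputable def lin (L : StrongDual ℝ (ι → ℝ)) : MvPolynomial ι ℂ :=
  ∑ i, MvPolynomial.C ((L (Pi.single i 1) : ℝ) : ℂ) * MvPolynomial.X i

theorem lin_eq (L : StrongDual ℝ (ι → ℝ)) (y : ι → ℝ) : L y = ∑ i, L (Pi.single i 1) * y i := by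
  have h1 : y = ∑ i, y i • (Pi.single i (1:ℝ) : ι → ℝ) := by
    rw [← Finset.univ_sum_single y]
    refine Finset.sum_congr rfl fun i _ => ?_
    ext j
    by_cases hj : j = i
    · subst hj; simp
    · simp [Pi.single_eq_of_ne hj]
  conv_lhs => rw [h1]
  rw [map_sum]
  refine Finset.sum_congr rfl fun i _ => ?_
  rw [map_smul, smul_eq_mul, mul_comm]

theorem pe_lin (L : StrongDual ℝ (ι → ℝ)) (y : ι → ℝ) : pe (lin L) y = ((L y : ℝ) : ℂ) := by
  rw [lin_eq L y]
  simp [pe, lin]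

theorem eg_exp (L : StrongDual ℝ (ι → ℝ)) : EG fun y : ι → ℝ => ((Real.exp |L y| : ℝ) : ℂ) := by
  refine ⟨by fun_prop, 1 + ∑ i, |L (Pi.single i 1)|, fun y => ?_⟩
  have h0 : 0 ≤ ∑ i, |L (Pi.single i 1)| := Finset.sum_nonneg fun i _ => abs_nonneg _
  have h1 : |L y| ≤ (1 + ∑ i, |L (Pi.single i 1)|) * ∑ i, |y i| := by
    rw [lin_eq L y, Finset.mul_sum]
    refine (Finset.abs_sum_le_sum_abs _ _).trans (Finset.sum_le_sum fun i _ => ?_)
    rw [abs_mul]
    refine mul_le_mul_of_nonneg_right ?_ (abs_nonneg _)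
    have := Finset.single_le_sum (f := fun i => |L (Pi.single i 1)|) (fun i _ => abs_nonneg _)
      (Finset.mem_univ i)
    linarith
  rw [Complex.norm_real, Real.norm_eq_abs, abs_of_pos (Real.exp_pos _)]
  calc Real.exp |L y| ≤ Real.exp ((1 + ∑ i, |L (Pi.single i 1)|) * ∑ i, |y i|) := Real.exp_le_exp.2 h1
    _ ≤ (1 + ∑ i, |L (Pi.single i 1)|) * Real.exp ((1 + ∑ i, |L (Pi.single i 1)|) * ∑ i, |y i|) := by
      have := Real.exp_pos ((1 + ∑ i, |L (Pi.single i 1)|) * ∑ i, |y i|)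
      nlinarith

/-- the partial sums of the exponential, as polynomials -/
noncomputable def ep (L : StrongDual ℝ (ι → ℝ)) (n : ℕ) : MvPolynomial ι ℂ :=
  ∑ k ∈ Finset.range n, MvPolynomial.C (I ^ k / (k.factorial : ℂ)) * lin L ^ k

theorem pe_ep (L : StrongDual ℝ (ι → ℝ)) (n : ℕ) (y : ι → ℝ) :
    pe (ep L n) y = ∑ k ∈ Finset.range n, (((L y : ℝ) : ℂ) * I) ^ k / (k.factorial : ℂ) := by
  have h1 : pe (ep L n) y = ∑ k ∈ Finset.range n, (I ^ k / (k.factorial : ℂ)) * pe (lin L) y ^ k := by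
    simp [pe, ep]
  rw [h1, pe_lin]
  refine Finset.sum_congr rfl fun k _ => ?_
  rw [mul_pow]
  ring

theorem ep_bound (L : StrongDual ℝ (ι → ℝ)) (n : ℕ) (y : ι → ℝ) :
    ‖pe (ep L n) y‖ ≤ Real.exp |L y| := by
  rw [pe_ep]
  refine (norm_sum_le _ _).trans ?_
  refine le_trans (le_of_eq ?_) (Real.sum_le_exp_of_nonneg (abs_nonneg (L y)) n)
  refine Finset.sum_congr rfl fun k _ => ?_
  simp

theorem ep_lim (L : StrongDual ℝ (ι → ℝ)) (y : ι → ℝ) :
    Filter.Tendsto (fun n => pe (ep L n) y) Filter.atTop (nhds (cexp (((L y : ℝ) : ℂ) * I))) := by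
  have h1 : ∀ n, pe (ep L n) y = ∑ k ∈ Finset.range n, (((L y : ℝ) : ℂ) * I) ^ k / (k.factorial : ℂ) :=
    fun n => pe_ep L n y
  simp only [h1]
  have h2 := (NormedSpace.expSeries_div_hasSum_exp (((L y : ℝ) : ℂ) * I)).tendsto_sum_nat
  rw [← Complex.exp_eq_exp_ℂ] at h2
  exact h2

/-- a square integrable function orthogonal to all polynomials has vanishing Fourier transform -/
theorem char_zero (hEGC : EgcStmt) {g : (ι → ℝ) → ℂ} (hg : MemLp g 2 (γn ι))
    (h : ∀ P : MvPolynomial ι ℂ, ∫ y, g y * pe P y ∂(γn ι) = 0) (L : StrongDual ℝ (ι → ℝ)) :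
    ∫ y, g y * cexp (((L y : ℝ) : ℂ) * I) ∂(γn ι) = 0 := by
  obtain ⟨-, h2, h3, -, -⟩ := hEGC ι
  have hex : MemLp (fun y : ι → ℝ => Real.exp |L y|) 2 (γn ι) := by
    rw [memLp_two_iff_integrable_sq (by fun_prop)]
    refine (h2 _ (eg_exp L)).2.2.congr (ae_of_all _ fun y => ?_)
    simp
  have hb : Integrable (fun y => ‖g y‖ * Real.exp |L y|) (γn ι) :=
    MemLp.integrable_mul (p := 2) (q := 2) hg.norm hex
  have h4 := tendsto_integral_of_dominated_convergence (μ := γn ι)
    (F := fun n y => g y * pe (ep L n) y) (f := fun y => g y * cexp (((L y : ℝ) : ℂ) * I))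
    (fun y => ‖g y‖ * Real.exp |L y|)
    (fun n => hg.1.mul (h3 _).1.aestronglyMeasurable) hb
    (fun n => ae_of_all _ fun y => by
      rw [norm_mul]
      exact mul_le_mul_of_nonneg_left (ep_bound L n y) (norm_nonneg _))
    (ae_of_all _ fun y => (ep_lim L y).const_mul _)
  simp only [h] at h4
  exact tendsto_nhds_unique h4 tendsto_const_nhds |>.symm ▸ rfl

theorem memLp_EG (hEGC : EgcStmt) {f : (ι → ℝ) → ℂ} (hf : EG f) : MemLp f 2 (γn ι) := by
  obtain ⟨-, h2, -, -, -⟩ := hEGC ι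
  exact (memLp_two_iff_integrable_sq_norm hf.1.aestronglyMeasurable).2 (h2 f hf).2.2

/-- the classes of the polynomials -/
def SP (ι : Type) [Fintype ι] [DecidableEq ι] : Submodule ℂ (Lp ℂ 2 (γn ι)) where
  carrier := {h | ∃ P : MvPolynomial ι ℂ, h =ᵐ[γn ι] pe P}
  add_mem' := by
    rintro a b ⟨P, hP⟩ ⟨Q, hQ⟩
    refine ⟨P + Q, ?_⟩
    filter_upwards [hP, hQ, Lp.coeFn_add a b] with y h1 h2 h3
    rw [h3, Pi.add_apply, h1, h2, pe_add]
  zero_mem' := by
    refine ⟨0, ?_⟩
    filter_upwards [Lp.coeFn_zero ℂ 2 (γn ι)] with y h1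
    rw [h1]
    simp [pe]
  smul_mem' := by
    rintro c a ⟨P, hP⟩
    refine ⟨c • P, ?_⟩
    filter_upwards [hP, Lp.coeFn_smul c a] with y h1 h2
    rw [h2, Pi.smul_apply, h1, pe_smul, smul_eq_mul]

theorem SP_dense (hEGC : EgcStmt) : (SP ι).topologicalClosure = ⊤ := by
  rw [Submodule.topologicalClosure_eq_top_iff, Submodule.eq_bot_iff]
  intro g hg
  have hg2 : MemLp g 2 (γn ι) := Lp.memLp g
  have h3 := (hEGC ι).2.2.1
  have hz : ∀ P : MvPolynomial ι ℂ, ∫ y, g y * pe P y ∂(γn ι) = 0 := by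
    intro P
    have hP := memLp_EG hEGC (h3 (MvPolynomial.map (starRingEnd ℂ) P))
    have h4 := (Submodule.mem_orthogonal _ g).1 hg (hP.toLp _) ⟨_, hP.coeFn_toLp⟩
    rw [L2.inner_def] at h4
    rw [← h4]
    refine integral_congr_ae ?_
    filter_upwards [hP.coeFn_toLp] with y h5
    rw [h5, pe_conj]
    simp
  have h4 : (g : (ι → ℝ) → ℂ) =ᵐ[γn ι] 0 :=
    cplx_zero (hg2.integrable (by norm_num)) (char_zero hEGC hg2 hz)
  exact (Lp.eq_zero_iff_ae_eq_zero).2 h4

end gauss

theorem cpl (hEGC : EgcStmt) : CplStmt := by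
  intro ι _ _ f hf del hdel
  have hF := memLp_EG hEGC hf
  have h1 : hF.toLp f ∈ (SP ι).topologicalClosure := by
    rw [SP_dense hEGC]
    exact Submodule.mem_top
  have h2 := Metric.mem_closure_iff.1 h1 (Real.sqrt del) (Real.sqrt_pos.2 hdel)
  obtain ⟨q, ⟨P, hP⟩, hq⟩ := h2
  refine ⟨P, ?_⟩
  rw [dist_eq_norm] at hq
  have h3 : ∫ y, ‖f y - pe P y‖ ^ 2 ∂(γn ι) = ‖hF.toLp f - q‖ ^ 2 := by
    have h4 := L2.inner_def (𝕜 := ℂ) (hF.toLp f - q) (hF.toLp f - q)
    rw [inner_self_eq_norm_sq_to_K] at h4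
    have h5 : ∀ᵐ y ∂(γn ι), inner ℂ ((hF.toLp f - q : Lp ℂ 2 (γn ι)) y)
        ((hF.toLp f - q : Lp ℂ 2 (γn ι)) y) = ((‖f y - pe P y‖ ^ 2 : ℝ) : ℂ) := by
      filter_upwards [hF.coeFn_toLp, hP, Lp.coeFn_sub (hF.toLp f) q] with y h6 h7 h8
      rw [h8, Pi.sub_apply, h6, h7, inner_self_eq_norm_sq_to_K]
      push_cast
      rfl
    rw [integral_congr_ae h5, integral_complex_ofReal] at h4
    have h9 : ((‖hF.toLp f - q‖ ^ 2 : ℝ) : ℂ) = ((∫ y, ‖f y - pe P y‖ ^ 2 ∂(γn ι) : ℝ) : ℂ) := by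
      push_cast
      exact h4
    exact (Complex.ofReal_injective h9).symm
  rw [h3]
  calc ‖hF.toLp f - q‖ ^ 2 < Real.sqrt del ^ 2 := by
        exact pow_lt_pow_left₀ hq (norm_nonneg _) (by norm_num)
    _ = del := Real.sq_sqrt hdel.le

end Pool.Agent.FTU.H7
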